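import Mathlib

set_option autoImplicit false

/-!
# From extended formulations of stable set polytopes to coverings

If a polyhedron given by `f` linear inequalities projects onto the stable set polytope of a graph,
then there are `f` vertex sets `W i` such that every nonempty clique `K` and every stable set `S`
disjoint from `K` are separated by one of them: `K ⊆ W i`, `S ∩ W i = ∅`.
-/

namespace Pool.Agent.XCPerf

open Finset

variable {n : ℕ}

/-- characteristic vector -/
noncomputable def chi (s : Finset (Fin n)) : Fin n → ℝ := fun i => if i ∈ s then (1 : ℝ) else 0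

theorem chi_sum (K s : Finset (Fin n)) : ∑ v ∈ K, chi s v = ((K ∩ s).card : ℝ) := by
  unfold chi
  rw [Finset.sum_ite_mem]
  simp

theorem inter_card_le_one (G : SimpleGraph (Fin n)) (K s : Finset (Fin n))
    (hK : ∀ u ∈ K, ∀ v ∈ K, u ≠ v → G.Adj u v) (hs : ∀ u ∈ s, ∀ v ∈ s, ¬ G.Adj u v) :
    (K ∩ s).card ≤ 1 := by
  rw [Finset.card_le_one]
  intro a ha b hb
  rw [Finset.mem_inter] at ha hb
  by_contra hab
  exact hs a ha.2 b hb.2 (hK a ha.1 b hb.1 hab)

theorem cover_of_extension (G : SimpleGraph (Fin n)) {k f : ℕ}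
    (A : Fin f → Fin k → ℝ) (b : Fin f → ℝ) (π : (Fin k → ℝ) →ᵃ[ℝ] (Fin n → ℝ))
    (h : π '' {y : Fin k → ℝ | ∀ i, ∑ j, A i j * y j ≤ b i} =
        convexHull ℝ {x : Fin n → ℝ | ∃ s : Finset (Fin n),
          (∀ u ∈ s, ∀ v ∈ s, ¬ G.Adj u v) ∧ x = fun i => if i ∈ s then (1:ℝ) else 0}) :
    ∃ W : Fin f → Set (Fin n), ∀ K S : Finset (Fin n),
      (∀ u ∈ K, ∀ v ∈ K, u ≠ v → G.Adj u v) → (∀ u ∈ S, ∀ v ∈ S, ¬ G.Adj u v) →
      K.Nonempty → Disjoint K S → ∃ i, (∀ v ∈ K, v ∈ W i) ∧ ∀ v ∈ S, v ∉ W i := by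
  classical
  set Q : Set (Fin k → ℝ) := {y : Fin k → ℝ | ∀ i, ∑ j, A i j * y j ≤ b i} with hQ
  set a : Fin f → (Fin k → ℝ) → ℝ := fun i y => ∑ j, A i j * y j with ha
  set l : Finset (Fin n) → (Fin k → ℝ) → ℝ := fun K y => ∑ v ∈ K, π y v with hl
  have a_comb : ∀ i (s t : ℝ) (y z : Fin k → ℝ), a i (s • y + t • z) = s * a i y + t * a i z := by
    intro i s t y z
    simp only [ha, Pi.add_apply, Pi.smul_apply, smul_eq_mul]
    rw [Finset.mul_sum, Finset.mul_sum, ← Finset.sum_add_distrib]
    exact Finset.sum_congr rfl fun j _ => by ring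
  have l_comb : ∀ K (s t : ℝ) (y z : Fin k → ℝ), s + t = 1 →
      l K (s • y + t • z) = s * l K y + t * l K z := by
    intro K s t y z hst
    simp only [hl]
    rw [Convex.combo_affine_apply hst, Finset.mul_sum, Finset.mul_sum, ← Finset.sum_add_distrib]
    exact Finset.sum_congr rfl fun j _ => by simp
  have pt : ∀ S : Finset (Fin n), (∀ u ∈ S, ∀ v ∈ S, ¬ G.Adj u v) →
      ∃ y ∈ Q, π y = chi S := by
    intro S hS
    have : chi S ∈ π '' Q := by
      rw [h]
      exact subset_convexHull ℝ _ ⟨S, hS, rfl⟩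
    exact this
  have l_le : ∀ K : Finset (Fin n), (∀ u ∈ K, ∀ v ∈ K, u ≠ v → G.Adj u v) →
      ∀ y ∈ Q, l K y ≤ 1 := by
    intro K hK y hy
    have h1 : π y ∈ convexHull ℝ {x : Fin n → ℝ | ∃ s : Finset (Fin n),
          (∀ u ∈ s, ∀ v ∈ s, ¬ G.Adj u v) ∧ x = fun i => if i ∈ s then (1:ℝ) else 0} := by
      rw [← h]; exact ⟨y, hy, rfl⟩
    have h2 : convexHull ℝ {x : Fin n → ℝ | ∃ s : Finset (Fin n),
          (∀ u ∈ s, ∀ v ∈ s, ¬ G.Adj u v) ∧ x = fun i => if i ∈ s then (1:ℝ) else 0} ⊆
          {x : Fin n → ℝ | ∑ v ∈ K, x v ≤ 1} := by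
      apply convexHull_min
      · rintro x ⟨s, hs, rfl⟩
        have h3 := chi_sum K s
        have h4 := inter_card_le_one G K s hK hs
        have h5 : ((K ∩ s).card : ℝ) ≤ 1 := by exact_mod_cast h4
        simp only [Set.mem_setOf_eq]
        calc ∑ v ∈ K, (if v ∈ s then (1:ℝ) else 0) = ∑ v ∈ K, chi s v := rfl
          _ ≤ 1 := by rw [h3]; exact h5
      · intro x hx y hy s t hs ht hst
        simp only [Set.mem_setOf_eq, Pi.add_apply, Pi.smul_apply, smul_eq_mul] at *
        rw [Finset.sum_add_distrib, ← Finset.mul_sum, ← Finset.mul_sum]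
        nlinarith
    exact h2 h1
  -- the tight sets
  set I : Finset (Fin n) → Set (Fin f) := fun K => {i | ∀ y ∈ Q, l K y = 1 → a i y = b i} with hI
  refine ⟨fun i => {v | ∃ K : Finset (Fin n), (∀ u ∈ K, ∀ v ∈ K, u ≠ v → G.Adj u v) ∧ v ∈ K ∧
    i ∈ I K}, ?_⟩
  intro K S hK hS hne hdis
  obtain ⟨yS, hyS, hπS⟩ := pt S hS
  have hl0 : l K yS = 0 := by
    simp only [hl]
    rw [hπS, chi_sum, Finset.disjoint_iff_inter_eq_empty.mp hdis]
    simp
  -- point in the relative interior of the face
  obtain ⟨v0, hv0⟩ := hne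
  have hz0 : ∃ z ∈ Q, l K z = 1 := by
    obtain ⟨z, hz, hπz⟩ := pt {v0} (by
      intro u hu v hv
      rw [Finset.mem_singleton] at hu hv
      subst hu; subst hv
      exact G.loopless.irrefl _)
    refine ⟨z, hz, ?_⟩
    simp only [hl]
    rw [hπz, chi_sum, Finset.inter_singleton_of_mem hv0]
    simp
  have hz : ∀ T : Finset (Fin f), ∃ z ∈ Q, l K z = 1 ∧ ∀ i ∈ T, i ∉ I K → a i z < b i := by
    intro T
    induction T using Finset.induction_on with
    | empty =>
      obtain ⟨z, hz, hz1⟩ := hz0
      exact ⟨z, hz, hz1, by simp⟩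
    | insert i T hiT ih =>
      obtain ⟨z, hz, hz1, hzT⟩ := ih
      by_cases hi : i ∈ I K
      · refine ⟨z, hz, hz1, ?_⟩
        intro j hj hjI
        rw [Finset.mem_insert] at hj
        rcases hj with rfl | hj
        · exact absurd hi hjI
        · exact hzT j hj hjI
      · have hi' : ∃ y ∈ Q, l K y = 1 ∧ a i y ≠ b i := by
          simp only [hI, Set.mem_setOf_eq] at hi
          push_neg at hi
          exact hi
        obtain ⟨y, hy, hy1, hyi⟩ := hi'
        refine ⟨(1/2 : ℝ) • z + (1/2 : ℝ) • y, ?_, ?_, ?_⟩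
        · intro j
          have e := a_comb j (1/2) (1/2) z y
          have h1 : a j z ≤ b j := hz j
          have h2 : a j y ≤ b j := hy j
          change a j ((1/2 : ℝ) • z + (1/2 : ℝ) • y) ≤ b j
          rw [e]; linarith
        · rw [l_comb K (1/2) (1/2) z y (by norm_num), hz1, hy1]; norm_num
        · intro j hj hjI
          have e := a_comb j (1/2) (1/2) z y
          have h1 : a j z ≤ b j := hz j
          have h2 : a j y ≤ b j := hy j
          rw [e]
          rw [Finset.mem_insert] at hj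
          rcases hj with rfl | hj
          · have h3 : a j y < b j := lt_of_le_of_ne h2 hyi
            linarith
          · have h3 := hzT j hj hjI
            linarith
  obtain ⟨z, hzQ, hz1, hzI⟩ := hz Finset.univ
  have hex : ∃ i ∈ I K, a i yS < b i := by
    by_contra hcon
    push_neg at hcon
    have heq : ∀ i ∈ I K, a i yS = b i := fun i hi => le_antisymm (hyS i) (hcon i hi)
    -- choose eps
    have heps : ∀ T : Finset (Fin f), ∃ ε : ℝ, 0 < ε ∧ ∀ i ∈ T,
        a i z + ε * (a i z - a i yS) ≤ b i := by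
      intro T
      induction T using Finset.induction_on with
      | empty => exact ⟨1, one_pos, by simp⟩
      | insert i T hiT ih =>
        obtain ⟨ε, hε, hT⟩ := ih
        by_cases hi : i ∈ I K
        · refine ⟨ε, hε, ?_⟩
          intro j hj
          rw [Finset.mem_insert] at hj
          rcases hj with rfl | hj
          · have h1 : a j z = b j := hi z hzQ hz1
            have h2 := heq j hi
            rw [h1, h2]; simp
          · exact hT j hj
        · have hlt := hzI i (Finset.mem_univ _) hi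
          have hD : (0:ℝ) < |a i z - a i yS| + 1 := by positivity
          refine ⟨min ε ((b i - a i z) / (|a i z - a i yS| + 1)), ?_, ?_⟩
          · exact lt_min hε (div_pos (by linarith) hD)
          · set δ := min ε ((b i - a i z) / (|a i z - a i yS| + 1)) with hδ
            have hδ0 : 0 < δ := lt_min hε (div_pos (by linarith) hD)
            have hδ1 : δ ≤ ε := min_le_left _ _
            have hδ2 : δ ≤ (b i - a i z) / (|a i z - a i yS| + 1) := min_le_right _ _
            intro j hj
            rw [Finset.mem_insert] at hj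
            rcases hj with rfl | hj
            · have h3 : δ * (|a j z - a j yS| + 1) ≤ b j - a j z := by
                rw [le_div_iff₀ hD] at hδ2
                exact hδ2
              have h4 : a j z - a j yS ≤ |a j z - a j yS| := le_abs_self _
              nlinarith
            · have h3 := hT j hj
              have h4 : a j z ≤ b j := hzQ j
              rcases le_or_gt (a j z - a j yS) 0 with h5 | h5
              · nlinarith
              · nlinarith
    obtain ⟨ε, hε, hall⟩ := heps Finset.univ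
    have hmem : (1 + ε) • z + (-ε) • yS ∈ Q := by
      intro i
      have e := a_comb i (1 + ε) (-ε) z yS
      change a i ((1 + ε) • z + (-ε) • yS) ≤ b i
      rw [e]
      have := hall i (Finset.mem_univ _)
      linarith
    have h1 := l_le K hK _ hmem
    rw [l_comb K (1 + ε) (-ε) z yS (by ring), hz1, hl0] at h1
    linarith
  obtain ⟨i, hiI, hi⟩ := hex
  refine ⟨i, ?_, ?_⟩
  · intro v hv
    exact ⟨K, hK, hv, hiI⟩
  · rintro v hv ⟨K', hK', hvK', hiK'⟩
    have h1 : l K' yS = 1 := by
      simp only [hl]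
      rw [hπS, chi_sum]
      have h2 := inter_card_le_one G K' S hK' hS
      have h3 : 0 < (K' ∩ S).card := Finset.card_pos.mpr ⟨v, Finset.mem_inter.mpr ⟨hvK', hv⟩⟩
      have h4 : (K' ∩ S).card = 1 := le_antisymm h2 h3
      rw [h4]; simp
    have h5 := hiK' yS hyS h1
    exact absurd h5 (ne_of_lt hi)

end Pool.Agent.XCPerf
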