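import Mathlib

set_option autoImplicit false

/-!
# The counting argument

Points `c` of the grid `Fin q × Fin q`, for every branch `i : Fin k` the rows (`true`) and the
columns (`false`).  A sample is `(i, c, t, U)`; a vertex set serves it if it contains the stable set
`c`, lines `(j, t j)` through `c`, and avoids the clique determined by `i, c, t i, U`.
-/

namespace Pool.Agent.XCPerf

open Finset

/-- the index of the row (`true`) or column (`false`) through the point `c` -/
def co {q : ℕ} (s : Bool) (c : Fin q × Fin q) : Fin q := if s then c.2 else c.1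

theorem co_ext {q : ℕ} (s : Bool) {c d : Fin q × Fin q} (h1 : co s c = co s d)
    (h2 : co (!s) c = co (!s) d) : c = d := by
  cases s
  · simp [co] at h1 h2
    exact Prod.ext h1 h2
  · simp [co] at h1 h2
    exact Prod.ext h2 h1

/-- the vertex set given by `pc`, `pl` contains the stable set and avoids the clique -/
def Serve {q k : ℕ} (pc : Fin q × Fin q → Prop) (pl : Fin k → Bool → Fin q → Prop)
    (i : Fin k) (c : Fin q × Fin q) (t : Fin k → Bool) (U : Finset (Fin q)) : Prop :=
  pc c ∧ (∀ j, pl j (t j) (co (t j) c)) ∧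
  (∀ d, co (t i) d = co (t i) c → co (!(t i)) d ∈ U → d ≠ c → ¬ pc d) ∧
  (∀ v, v ≠ co (t i) c → ¬ pl i (t i) v) ∧
  (∀ v, (v ∉ U ∨ v = co (!(t i)) c) → ¬ pl i (!(t i)) v)

/-- the branch `i` is used -/
def Act {q k : ℕ} (pc : Fin q × Fin q → Prop) (pl : Fin k → Bool → Fin q → Prop)
    (i : Fin k) : Prop := ∃ c t U, Serve pc pl i c t U

variable {q k : ℕ} {pc : Fin q × Fin q → Prop} {pl : Fin k → Bool → Fin q → Prop}

theorem act_not_both {j : Fin k} (h : Act pc pl j) {c : Fin q × Fin q} (hc : pc c) (s : Bool) :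
    ¬ (pl j s (co s c) ∧ pl j (!s) (co (!s) c)) := by
  have main : ∀ s : Bool, (∃ c1 t U, Serve pc pl j c1 t U ∧ t j = s) →
      ¬ (pl j s (co s c) ∧ pl j (!s) (co (!s) c)) := by
    rintro s ⟨c1, t, U, ⟨_, _, h3, h4, h5⟩, rfl⟩ ⟨ha, hb⟩
    have e1 : co (t j) c = co (t j) c1 := by
      by_contra hne
      exact h4 _ hne ha
    have e2 : co (!(t j)) c ∈ U := by
      by_contra hne
      exact h5 _ (Or.inl hne) hb
    have e3 : c ≠ c1 := by
      rintro rfl
      exact h5 _ (Or.inr rfl) hb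
    exact h3 c e1 e2 e3 hc
  obtain ⟨c1, t, U, hs⟩ := h
  have h1 := main (t j) ⟨c1, t, U, hs, rfl⟩
  rcases Bool.eq_or_eq_not s (t j) with hst | hst
  · rw [hst]; exact h1
  · rw [hst]
    rintro ⟨ha, hb⟩
    rw [Bool.not_not] at hb
    exact h1 ⟨hb, ha⟩

open Classical in
theorem card_T {c : Fin q × Fin q} (hc : pc c) :
    (Fintype.piFinset (fun j : Fin k =>
      (Finset.univ : Finset Bool).filter (fun b => pl j b (co b c)))).card *
      2 ^ ((Finset.univ : Finset (Fin k)).filter (fun j => Act pc pl j)).card ≤ 2 ^ k := by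
  rw [Fintype.card_piFinset]
  have e1 : 2 ^ ((Finset.univ : Finset (Fin k)).filter (fun j => Act pc pl j)).card =
      ∏ j : Fin k, (if Act pc pl j then 2 else 1) := by
    rw [Finset.prod_ite]
    simp
  rw [e1, ← Finset.prod_mul_distrib]
  have e2 : (2 : ℕ) ^ k = ∏ _j : Fin k, 2 := by simp
  rw [e2]
  apply Finset.prod_le_prod'
  intro j _
  by_cases hj : Act pc pl j
  · rw [if_pos hj]
    have h1 : ((Finset.univ : Finset Bool).filter (fun b => pl j b (co b c))).card ≤ 1 := by
      rw [Finset.card_le_one]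
      intro a ha b hb
      rw [Finset.mem_filter] at ha hb
      by_contra hab
      have hb' : b = !a := by
        cases a <;> cases b <;> simp_all
      subst hb'
      exact act_not_both hj hc a ⟨ha.2, hb.2⟩
    omega
  · rw [if_neg hj]
    have h1 : ((Finset.univ : Finset Bool).filter (fun b => pl j b (co b c))).card ≤
        (Finset.univ : Finset Bool).card := Finset.card_le_card (Finset.filter_subset _ _)
    rw [Finset.card_univ, Fintype.card_bool] at h1
    omega

open Classical in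
theorem card_U (s : Bool) (Cs : Finset (Fin q × Fin q)) (v0 : Fin q)
    (hCs : ∀ d ∈ Cs, co s d = v0) (E : Finset (Fin q)) {c : Fin q × Fin q} (hc : c ∈ Cs) :
    ((Finset.univ : Finset (Finset (Fin q))).filter
      (fun U => (∀ d ∈ Cs, d ≠ c → co (!s) d ∉ U) ∧ E ⊆ U)).card *
      2 ^ (Cs.card - 1) * 2 ^ E.card ≤ 2 ^ q := by
  set F : Finset (Fin q) := (Cs.erase c).image (co (!s)) with hF
  have hFcard : F.card = Cs.card - 1 := by
    rw [hF, Finset.card_image_of_injOn, Finset.card_erase_of_mem hc]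
    intro a ha b hb hab
    have ha' := hCs a (Finset.mem_of_mem_erase ha)
    have hb' := hCs b (Finset.mem_of_mem_erase hb)
    exact co_ext s (ha'.trans hb'.symm) hab
  rcases ((Finset.univ : Finset (Finset (Fin q))).filter
      (fun U => (∀ d ∈ Cs, d ≠ c → co (!s) d ∉ U) ∧ E ⊆ U)).eq_empty_or_nonempty with h0 | h0
  · rw [h0]; simp
  obtain ⟨U0, hU0⟩ := h0
  obtain ⟨_, hU1, hU2⟩ := Finset.mem_filter.mp hU0
  have hEF : E ⊆ (Finset.univ : Finset (Fin q)) \ F := by
    intro v hv
    rw [Finset.mem_sdiff]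
    refine ⟨Finset.mem_univ _, ?_⟩
    intro hvF
    obtain ⟨d, hd, rfl⟩ := Finset.mem_image.mp hvF
    exact hU1 d (Finset.mem_of_mem_erase hd) (Finset.ne_of_mem_erase hd) (hU2 hv)
  have hsub : (Finset.univ : Finset (Finset (Fin q))).filter
      (fun U => (∀ d ∈ Cs, d ≠ c → co (!s) d ∉ U) ∧ E ⊆ U) ⊆
      Finset.Icc E ((Finset.univ : Finset (Fin q)) \ F) := by
    intro U hU
    obtain ⟨_, hU1, hU2⟩ := Finset.mem_filter.mp hU
    rw [Finset.mem_Icc]
    refine ⟨hU2, ?_⟩
    intro v hv
    rw [Finset.mem_sdiff]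
    refine ⟨Finset.mem_univ _, ?_⟩
    intro hvF
    obtain ⟨d, hd, rfl⟩ := Finset.mem_image.mp hvF
    exact hU1 d (Finset.mem_of_mem_erase hd) (Finset.ne_of_mem_erase hd) hv
  have h1 := Finset.card_le_card hsub
  rw [Finset.card_Icc_finset hEF, Finset.card_sdiff_of_subset (Finset.subset_univ _),
    Finset.card_univ, Fintype.card_fin, hFcard] at h1
  have h2 := Finset.card_le_card hEF
  rw [Finset.card_sdiff_of_subset (Finset.subset_univ _),
    Finset.card_univ, Fintype.card_fin, hFcard] at h2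
  have h3 : F.card ≤ q := by
    have := Finset.card_le_univ F
    rwa [Fintype.card_fin] at this
  rw [hFcard] at h3
  calc _ ≤ 2 ^ (q - (Cs.card - 1) - E.card) * 2 ^ (Cs.card - 1) * 2 ^ E.card := by
        gcongr
    _ = 2 ^ q := by
        rw [← pow_add, ← pow_add]
        congr 1
        omega

open Classical in
theorem card_side (i : Fin k) (s : Bool) :
    ((Finset.univ : Finset ((Fin q × Fin q) × (Fin k → Bool) × Finset (Fin q))).filter
      (fun w => Serve pc pl i w.1 w.2.1 w.2.2 ∧ w.2.1 i = s)).card *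
      2 ^ ((Finset.univ : Finset (Fin q)).filter (fun v => pl i (!s) v)).card *
      2 ^ ((Finset.univ : Finset (Fin k)).filter (fun j => Act pc pl j)).card ≤ 2 ^ (k + q) := by
  set A := (Finset.univ : Finset ((Fin q × Fin q) × (Fin k → Bool) × Finset (Fin q))).filter
      (fun w => Serve pc pl i w.1 w.2.1 w.2.2 ∧ w.2.1 i = s) with hA
  set E := (Finset.univ : Finset (Fin q)).filter (fun v => pl i (!s) v) with hE
  set h := ((Finset.univ : Finset (Fin k)).filter (fun j => Act pc pl j)).card with hh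
  rcases A.eq_empty_or_nonempty with h0 | ⟨w0, hw0⟩
  · rw [h0]; simp
  obtain ⟨_, hw1, hw2⟩ := Finset.mem_filter.mp hw0
  set v0 := co s w0.1 with hv0
  have huniq : ∀ w ∈ A, co s w.1 = v0 := by
    intro w hw
    obtain ⟨_, hs1, hs2⟩ := Finset.mem_filter.mp hw
    by_contra hne
    have h4 := hw1.2.2.2.1 (co s w.1) (by rw [hw2]; exact hne)
    have h2 := hs1.2.1 i
    rw [hs2] at h2
    rw [hw2] at h4
    exact h4 h2
  set Cs := (Finset.univ : Finset (Fin q × Fin q)).filter (fun c => pc c ∧ co s c = v0) with hCs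
  set T : Fin q × Fin q → Finset (Fin k → Bool) := fun c => Fintype.piFinset (fun j : Fin k =>
      (Finset.univ : Finset Bool).filter (fun b => pl j b (co b c))) with hT
  set UU : Fin q × Fin q → Finset (Finset (Fin q)) := fun c =>
      (Finset.univ : Finset (Finset (Fin q))).filter
      (fun U => (∀ d ∈ Cs, d ≠ c → co (!s) d ∉ U) ∧ E ⊆ U) with hUU
  have hsub : A ⊆ Cs.biUnion (fun c => ({c} : Finset (Fin q × Fin q)) ×ˢ (T c ×ˢ UU c)) := by
    intro w hw
    have hu := huniq w hw
    obtain ⟨_, hs1, hs2⟩ := Finset.mem_filter.mp hw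
    obtain ⟨s1, s2, s3, s4, s5⟩ := hs1
    rw [Finset.mem_biUnion]
    refine ⟨w.1, Finset.mem_filter.mpr ⟨Finset.mem_univ _, s1, hu⟩, ?_⟩
    rw [Finset.mem_product, Finset.mem_product]
    refine ⟨Finset.mem_singleton_self _, ?_, ?_⟩
    · simp only [hT]
      rw [Fintype.mem_piFinset]
      intro j
      exact Finset.mem_filter.mpr ⟨Finset.mem_univ _, s2 j⟩
    · refine Finset.mem_filter.mpr ⟨Finset.mem_univ _, ?_, ?_⟩
      · intro d hd hdc hdU
        obtain ⟨_, hd1, hd2⟩ := Finset.mem_filter.mp hd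
        rw [hs2] at s3
        exact s3 d (hd2.trans hu.symm) hdU hdc hd1
      · intro v hv
        have hv' := (Finset.mem_filter.mp hv).2
        by_contra hvU
        rw [hs2] at s5
        exact s5 v (Or.inl hvU) hv'
  have hcard : A.card ≤ ∑ c ∈ Cs, (T c).card * (UU c).card := by
    refine (Finset.card_le_card hsub).trans (Finset.card_biUnion_le.trans ?_)
    apply Finset.sum_le_sum
    intro c _
    rw [Finset.card_product, Finset.card_product, Finset.card_singleton, one_mul]
  have hw0C : w0.1 ∈ Cs := Finset.mem_filter.mpr ⟨Finset.mem_univ _, hw1.1, rfl⟩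
  have hpos : 1 ≤ Cs.card := Finset.card_pos.mpr ⟨_, hw0C⟩
  have hbound : ∀ c ∈ Cs, (T c).card * (UU c).card * (2 ^ (Cs.card - 1) * 2 ^ E.card * 2 ^ h) ≤
      2 ^ (k + q) := by
    intro c hc
    have h1 := card_T (pl := pl) (k := k) (Finset.mem_filter.mp hc).2.1
    have h2 := card_U s Cs v0 (fun d hd => (Finset.mem_filter.mp hd).2.2) E hc
    calc (T c).card * (UU c).card * (2 ^ (Cs.card - 1) * 2 ^ E.card * 2 ^ h)
        = ((T c).card * 2 ^ h) * ((UU c).card * 2 ^ (Cs.card - 1) * 2 ^ E.card) := by ring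
      _ ≤ 2 ^ k * 2 ^ q := Nat.mul_le_mul h1 h2
      _ = 2 ^ (k + q) := by rw [pow_add]
  have htot : A.card * (2 ^ (Cs.card - 1) * 2 ^ E.card * 2 ^ h) ≤ Cs.card * 2 ^ (k + q) := by
    calc A.card * (2 ^ (Cs.card - 1) * 2 ^ E.card * 2 ^ h)
        ≤ (∑ c ∈ Cs, (T c).card * (UU c).card) * (2 ^ (Cs.card - 1) * 2 ^ E.card * 2 ^ h) :=
          Nat.mul_le_mul_right _ hcard
      _ = ∑ c ∈ Cs, (T c).card * (UU c).card * (2 ^ (Cs.card - 1) * 2 ^ E.card * 2 ^ h) := by
          rw [Finset.sum_mul]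
      _ ≤ ∑ _c ∈ Cs, 2 ^ (k + q) := Finset.sum_le_sum hbound
      _ = Cs.card * 2 ^ (k + q) := by rw [Finset.sum_const, smul_eq_mul]
  have hd : Cs.card ≤ 2 ^ (Cs.card - 1) := by
    have := Nat.lt_two_pow_self (n := Cs.card - 1)
    omega
  have hP : 0 < 2 ^ (Cs.card - 1) := by positivity
  have hfin : 2 ^ (Cs.card - 1) * (A.card * 2 ^ E.card * 2 ^ h) ≤
      2 ^ (Cs.card - 1) * 2 ^ (k + q) := by
    calc 2 ^ (Cs.card - 1) * (A.card * 2 ^ E.card * 2 ^ h)
        = A.card * (2 ^ (Cs.card - 1) * 2 ^ E.card * 2 ^ h) := by ring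
      _ ≤ Cs.card * 2 ^ (k + q) := htot
      _ ≤ 2 ^ (Cs.card - 1) * 2 ^ (k + q) := Nat.mul_le_mul_right _ hd
  exact Nat.le_of_mul_le_mul_left hfin hP

open Classical in
theorem card_branch (i : Fin k) :
    ((Finset.univ : Finset ((Fin q × Fin q) × (Fin k → Bool) × Finset (Fin q))).filter
      (fun w => Serve pc pl i w.1 w.2.1 w.2.2)).card *
      2 ^ ((Finset.univ : Finset (Fin k)).filter (fun j => Act pc pl j)).card ≤ 2 ^ (k + q) := by
  set A := (Finset.univ : Finset ((Fin q × Fin q) × (Fin k → Bool) × Finset (Fin q))).filter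
      (fun w => Serve pc pl i w.1 w.2.1 w.2.2) with hA
  set At : Bool → Finset ((Fin q × Fin q) × (Fin k → Bool) × Finset (Fin q)) := fun s =>
    (Finset.univ : Finset ((Fin q × Fin q) × (Fin k → Bool) × Finset (Fin q))).filter
      (fun w => Serve pc pl i w.1 w.2.1 w.2.2 ∧ w.2.1 i = s) with hAt
  set h := ((Finset.univ : Finset (Fin k)).filter (fun j => Act pc pl j)).card with hh
  have hsum : A.card ≤ (At true).card + (At false).card := by
    have : A ⊆ At true ∪ At false := by
      intro w hw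
      have hw' := (Finset.mem_filter.mp hw).2
      rw [Finset.mem_union]
      rcases Bool.eq_false_or_eq_true (w.2.1 i) with hb | hb
      · exact Or.inl (Finset.mem_filter.mpr ⟨Finset.mem_univ _, hw', hb⟩)
      · exact Or.inr (Finset.mem_filter.mpr ⟨Finset.mem_univ _, hw', hb⟩)
    exact (Finset.card_le_card this).trans (Finset.card_union_le _ _)
  have hside := fun s => card_side (pc := pc) (pl := pl) i s
  have hone : ∀ s, (At s).card * 2 ^ h ≤ 2 ^ (k + q) := by
    intro s
    refine le_trans ?_ (hside s)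
    apply Nat.mul_le_mul_right
    exact Nat.le_mul_of_pos_right _ (by positivity)
  have htwo : ∀ s, (At (!s)).Nonempty → 2 * ((At s).card * 2 ^ h) ≤ 2 ^ (k + q) := by
    rintro s ⟨w, hw⟩
    obtain ⟨_, hs1, hs2⟩ := Finset.mem_filter.mp hw
    have h1 : 1 ≤ ((Finset.univ : Finset (Fin q)).filter (fun v => pl i (!s) v)).card := by
      apply Finset.card_pos.mpr
      refine ⟨co (!s) w.1, Finset.mem_filter.mpr ⟨Finset.mem_univ _, ?_⟩⟩
      have := hs1.2.1 i
      rw [hs2] at this
      exact this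
    have h2 : 2 ≤ 2 ^ ((Finset.univ : Finset (Fin q)).filter (fun v => pl i (!s) v)).card := by
      calc 2 = 2 ^ 1 := by norm_num
        _ ≤ _ := Nat.pow_le_pow_right (by norm_num) h1
    calc 2 * ((At s).card * 2 ^ h) = (At s).card * 2 * 2 ^ h := by ring
      _ ≤ (At s).card * 2 ^ ((Finset.univ : Finset (Fin q)).filter (fun v => pl i (!s) v)).card
          * 2 ^ h := by gcongr
      _ ≤ 2 ^ (k + q) := hside s
  have hgoal : ((At true).card + (At false).card) * 2 ^ h ≤ 2 ^ (k + q) := by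
    rcases (At true).eq_empty_or_nonempty with h0 | h0
    · rw [h0, Finset.card_empty, zero_add]; exact hone false
    rcases (At false).eq_empty_or_nonempty with h1 | h1
    · rw [h1, Finset.card_empty, add_zero]; exact hone true
    have e1 := htwo true h1
    have e2 := htwo false h0
    rw [add_mul]
    omega
  exact (Nat.mul_le_mul_right _ hsum).trans hgoal

open Classical in
theorem count_bound (pc : Fin q × Fin q → Prop) (pl : Fin k → Bool → Fin q → Prop) :
    2 * ((Finset.univ : Finset (Fin k × (Fin q × Fin q) × (Fin k → Bool) × Finset (Fin q))).filter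
      (fun w => Serve pc pl w.1 w.2.1 w.2.2.1 w.2.2.2)).card ≤ 2 ^ (k + q) := by
  set A := (Finset.univ : Finset (Fin k × (Fin q × Fin q) × (Fin k → Bool) ×
    Finset (Fin q))).filter (fun w => Serve pc pl w.1 w.2.1 w.2.2.1 w.2.2.2) with hA
  set B : Fin k → Finset ((Fin q × Fin q) × (Fin k → Bool) × Finset (Fin q)) := fun i =>
    (Finset.univ : Finset ((Fin q × Fin q) × (Fin k → Bool) × Finset (Fin q))).filter
      (fun w => Serve pc pl i w.1 w.2.1 w.2.2) with hB
  set R := (Finset.univ : Finset (Fin k)).filter (fun j => Act pc pl j) with hR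
  have hsub : A ⊆ R.biUnion (fun i => ({i} : Finset (Fin k)) ×ˢ B i) := by
    intro w hw
    have hw' := (Finset.mem_filter.mp hw).2
    rw [Finset.mem_biUnion]
    refine ⟨w.1, Finset.mem_filter.mpr ⟨Finset.mem_univ _, w.2.1, w.2.2.1, w.2.2.2, hw'⟩, ?_⟩
    rw [Finset.mem_product]
    exact ⟨Finset.mem_singleton_self _, Finset.mem_filter.mpr ⟨Finset.mem_univ _, hw'⟩⟩
  have hcard : A.card ≤ ∑ i ∈ R, (B i).card := by
    refine (Finset.card_le_card hsub).trans (Finset.card_biUnion_le.trans ?_)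
    apply Finset.sum_le_sum
    intro i _
    rw [Finset.card_product, Finset.card_singleton, one_mul]
  have htot : A.card * 2 ^ R.card ≤ R.card * 2 ^ (k + q) := by
    calc A.card * 2 ^ R.card ≤ (∑ i ∈ R, (B i).card) * 2 ^ R.card := Nat.mul_le_mul_right _ hcard
      _ = ∑ i ∈ R, (B i).card * 2 ^ R.card := by rw [Finset.sum_mul]
      _ ≤ ∑ _i ∈ R, 2 ^ (k + q) := Finset.sum_le_sum fun i _ => card_branch i
      _ = R.card * 2 ^ (k + q) := by rw [Finset.sum_const, smul_eq_mul]
  rcases Nat.eq_zero_or_pos R.card with h0 | h0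
  · rw [h0] at htot
    simp at htot
    rw [htot]; simp
  · have h1 : 2 * R.card ≤ 2 ^ R.card := by
      obtain ⟨r, hr⟩ : ∃ r, R.card = r + 1 := ⟨R.card - 1, by omega⟩
      rw [hr, pow_succ]
      have := Nat.lt_two_pow_self (n := r)
      omega
    have hP : 0 < 2 ^ R.card := by positivity
    have hfin : 2 ^ R.card * (2 * A.card) ≤ 2 ^ R.card * 2 ^ (k + q) := by
      calc 2 ^ R.card * (2 * A.card) = 2 * (A.card * 2 ^ R.card) := by ring
        _ ≤ 2 * (R.card * 2 ^ (k + q)) := Nat.mul_le_mul_left _ htot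
        _ = (2 * R.card) * 2 ^ (k + q) := by ring
        _ ≤ 2 ^ R.card * 2 ^ (k + q) := Nat.mul_le_mul_right _ h1
    exact Nat.le_of_mul_le_mul_left hfin hP

end Pool.Agent.XCPerf
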