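import Mathlib

set_option autoImplicit false

/-!
# Unipolar graphs are perfect

The vertices are split into a centre (`br v = none`), a clique, and branches (`br v = some i`),
which are cliques without edges between different ones; the edges between the centre and the
branches are arbitrary.
-/

namespace Pool.Agent.XCPerf

open Finset

theorem unipolar_perfect {V ι : Type*} [DecidableEq V] (G : SimpleGraph V) (br : V → Option ι)
    (h0 : ∀ u v, u ≠ v → br u = none → br v = none → G.Adj u v)
    (h1 : ∀ u v i, u ≠ v → br u = some i → br v = some i → G.Adj u v)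
    (h2 : ∀ u v i j, br u = some i → br v = some j → i ≠ j → ¬ G.Adj u v)
    (S : Finset V) (m : ℕ)
    (hm : ∀ t : Finset V, t ⊆ S → (∀ u ∈ t, ∀ v ∈ t, u ≠ v → G.Adj u v) → t.card ≤ m) :
    ∃ c : V → ℕ, (∀ u ∈ S, c u < m) ∧ ∀ u ∈ S, ∀ v ∈ S, G.Adj u v → c u ≠ c v := by
  classical
  set SC : Finset V := S.filter (fun v => br v = none) with hSC
  have hSCm : SC.card ≤ m := by
    apply hm SC (Finset.filter_subset _ _)
    intro u hu v hv huv
    exact h0 u v huv (Finset.mem_filter.mp hu).2 (Finset.mem_filter.mp hv).2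
  -- colouring of the centre
  obtain ⟨e, he_lt, he_inj⟩ : ∃ e : V → ℕ, (∀ v ∈ SC, e v < SC.card) ∧
      (∀ u ∈ SC, ∀ v ∈ SC, e u = e v → u = v) := by
    refine ⟨fun v => if h : v ∈ SC then (SC.equivFin ⟨v, h⟩ : ℕ) else 0, ?_, ?_⟩
    · intro v hv
      simp only [hv, dif_pos]
      exact (SC.equivFin ⟨v, hv⟩).2
    · intro u hu v hv huv
      simp only [hu, hv, dif_pos] at huv
      have h3 : SC.equivFin ⟨u, hu⟩ = SC.equivFin ⟨v, hv⟩ := Fin.ext huv
      have h4 := SC.equivFin.injective h3
      exact congrArg Subtype.val h4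
  -- the branches
  have hg : ∀ i : ι, ∃ g : {x // x ∈ S.filter (fun v => br v = some i)} → ℕ,
      Function.Injective g ∧ ∀ x, g x ∈ ((SC.filter (fun c => ¬ G.Adj c x.1)).image e) ∪
        Finset.Ico SC.card m := by
    intro i
    rw [← Finset.all_card_le_biUnion_card_iff_exists_injective]
    intro A
    rcases A.eq_empty_or_nonempty with rfl | ⟨x0, hx0⟩
    · simp
    set N : Finset V := SC.filter (fun c => ∃ x ∈ A, ¬ G.Adj c x.1) with hN
    set Q : Finset V := (SC \ N) ∪ A.image Subtype.val with hQ
    have hQS : Q ⊆ S := by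
      intro v hv
      rw [hQ, Finset.mem_union] at hv
      rcases hv with hv | hv
      · exact (Finset.mem_filter.mp (Finset.mem_sdiff.mp hv).1).1
      · obtain ⟨x, _, rfl⟩ := Finset.mem_image.mp hv
        exact (Finset.mem_filter.mp x.2).1
    have hcA : ∀ c ∈ SC \ N, ∀ x ∈ A, G.Adj c x.1 := by
      intro c hc x hx
      by_contra hcx
      rw [Finset.mem_sdiff] at hc
      exact hc.2 (Finset.mem_filter.mpr ⟨hc.1, x, hx, hcx⟩)
    have hQm : Q.card ≤ m := by
      apply hm Q hQS
      intro u hu v hv huv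
      rw [hQ, Finset.mem_union] at hu hv
      rcases hu with hu | hu <;> rcases hv with hv | hv
      · exact h0 u v huv (Finset.mem_filter.mp (Finset.mem_sdiff.mp hu).1).2
          (Finset.mem_filter.mp (Finset.mem_sdiff.mp hv).1).2
      · obtain ⟨x, hx, rfl⟩ := Finset.mem_image.mp hv
        exact hcA u hu x hx
      · obtain ⟨x, hx, rfl⟩ := Finset.mem_image.mp hu
        exact (hcA v hv x hx).symm
      · obtain ⟨x, hx, rfl⟩ := Finset.mem_image.mp hu
        obtain ⟨y, hy, rfl⟩ := Finset.mem_image.mp hv
        exact h1 _ _ i huv (Finset.mem_filter.mp x.2).2 (Finset.mem_filter.mp y.2).2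
    have hdisj : Disjoint (SC \ N) (A.image Subtype.val) := by
      rw [Finset.disjoint_left]
      intro v hv hv2
      obtain ⟨x, _, rfl⟩ := Finset.mem_image.mp hv2
      have h3 := (Finset.mem_filter.mp (Finset.mem_sdiff.mp hv).1).2
      have h4 := (Finset.mem_filter.mp x.2).2
      rw [h3] at h4
      exact absurd h4 (by simp)
    have hcardQ : Q.card = (SC.card - N.card) + A.card := by
      rw [hQ, Finset.card_union_of_disjoint hdisj,
        Finset.card_sdiff_of_subset (Finset.filter_subset _ _),
        Finset.card_image_of_injective _ Subtype.val_injective]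
    have hNle : N.card ≤ SC.card := Finset.card_le_card (Finset.filter_subset _ _)
    have hsub : (N.image e) ∪ Finset.Ico SC.card m ⊆
        A.biUnion (fun x => ((SC.filter (fun c => ¬ G.Adj c x.1)).image e) ∪
          Finset.Ico SC.card m) := by
      intro y hy
      rw [Finset.mem_union] at hy
      rw [Finset.mem_biUnion]
      rcases hy with hy | hy
      · obtain ⟨c, hc, rfl⟩ := Finset.mem_image.mp hy
        obtain ⟨hc1, x, hx, hcx⟩ := Finset.mem_filter.mp hc
        exact ⟨x, hx, Finset.mem_union_left _ (Finset.mem_image.mpr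
          ⟨c, Finset.mem_filter.mpr ⟨hc1, hcx⟩, rfl⟩)⟩
      · exact ⟨x0, hx0, Finset.mem_union_right _ hy⟩
    have hdisj2 : Disjoint (N.image e) (Finset.Ico SC.card m) := by
      rw [Finset.disjoint_left]
      intro y hy hy2
      obtain ⟨c, hc, rfl⟩ := Finset.mem_image.mp hy
      have h3 := he_lt c (Finset.mem_filter.mp hc).1
      have h4 := (Finset.mem_Ico.mp hy2).1
      omega
    have hcard2 : ((N.image e) ∪ Finset.Ico SC.card m).card = N.card + (m - SC.card) := by
      rw [Finset.card_union_of_disjoint hdisj2, Nat.card_Ico,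
        Finset.card_image_of_injOn]
      intro u hu v hv huv
      exact he_inj u (Finset.mem_filter.mp hu).1 v (Finset.mem_filter.mp hv).1 huv
    have h5 := Finset.card_le_card hsub
    rw [hcard2] at h5
    omega
  choose g hg_inj hg_mem using hg
  -- the colouring
  have hcol : ∃ c : V → ℕ, (∀ v ∈ SC, c v = e v) ∧
      (∀ i (v : V) (hv : v ∈ S.filter (fun v => br v = some i)), c v = g i ⟨v, hv⟩) := by
    refine ⟨fun v => if h : ∃ i, v ∈ S.filter (fun v => br v = some i) then
      g h.choose ⟨v, h.choose_spec⟩ else e v, ?_, ?_⟩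
    · intro v hv
      have hno : ¬ ∃ i, v ∈ S.filter (fun v => br v = some i) := by
        rintro ⟨i, hi⟩
        have h3 := (Finset.mem_filter.mp hv).2
        have h4 := (Finset.mem_filter.mp hi).2
        rw [h3] at h4
        exact absurd h4 (by simp)
      simp only [hno, dif_neg, not_false_eq_true]
    · intro i v hv
      have hex : ∃ i, v ∈ S.filter (fun v => br v = some i) := ⟨i, hv⟩
      simp only [hex, dif_pos]
      have hi : hex.choose = i := by
        have h3 := (Finset.mem_filter.mp hex.choose_spec).2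
        have h4 := (Finset.mem_filter.mp hv).2
        rw [h3] at h4
        exact Option.some.inj h4
      have gen : ∀ (j : ι) (hj : v ∈ S.filter (fun v => br v = some j)), j = i →
          g j ⟨v, hj⟩ = g i ⟨v, hv⟩ := by
        intro j hj hji
        subst hji
        rfl
      exact gen _ _ hi
  obtain ⟨c, hc0, hc1⟩ := hcol
  have hlt : ∀ u ∈ S, c u < m := by
    intro u hu
    rcases hbr : br u with _ | i
    · have hu' : u ∈ SC := Finset.mem_filter.mpr ⟨hu, hbr⟩
      rw [hc0 u hu']
      exact lt_of_lt_of_le (he_lt u hu') hSCm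
    · have hu' : u ∈ S.filter (fun v => br v = some i) := Finset.mem_filter.mpr ⟨hu, hbr⟩
      rw [hc1 i u hu']
      have h3 := hg_mem i ⟨u, hu'⟩
      rw [Finset.mem_union] at h3
      rcases h3 with h3 | h3
      · obtain ⟨d, hd, hde⟩ := Finset.mem_image.mp h3
        rw [← hde]
        exact lt_of_lt_of_le (he_lt d (Finset.mem_filter.mp hd).1) hSCm
      · exact (Finset.mem_Ico.mp h3).2
  have key : ∀ u ∈ S, ∀ v ∈ S, br u = none → ∀ i, br v = some i → G.Adj u v → c u ≠ c v := by
    intro u hu v hv hbu i hbv huv hcc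
    have hu' : u ∈ SC := Finset.mem_filter.mpr ⟨hu, hbu⟩
    have hv' : v ∈ S.filter (fun v => br v = some i) := Finset.mem_filter.mpr ⟨hv, hbv⟩
    rw [hc0 u hu', hc1 i v hv'] at hcc
    have h3 := hg_mem i ⟨v, hv'⟩
    rw [Finset.mem_union] at h3
    rcases h3 with h3 | h3
    · obtain ⟨d, hd, hde⟩ := Finset.mem_image.mp h3
      obtain ⟨hd1, hd2⟩ := Finset.mem_filter.mp hd
      have h4 : e u = e d := by rw [hde]; exact hcc
      have h5 := he_inj u hu' d hd1 h4
      subst h5
      exact hd2 huv
    · have h4 := (Finset.mem_Ico.mp h3).1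
      have h5 := he_lt u hu'
      omega
  refine ⟨c, hlt, ?_⟩
  intro u hu v hv huv hcc
  rcases hbu : br u with _ | i <;> rcases hbv : br v with _ | j
  · have hu' : u ∈ SC := Finset.mem_filter.mpr ⟨hu, hbu⟩
    have hv' : v ∈ SC := Finset.mem_filter.mpr ⟨hv, hbv⟩
    rw [hc0 u hu', hc0 v hv'] at hcc
    exact huv.ne (he_inj u hu' v hv' hcc)
  · exact key u hu v hv hbu j hbv huv hcc
  · exact key v hv u hu hbv i hbu huv.symm hcc.symm
  · by_cases hij : i = j
    · subst hij
      have hu' : u ∈ S.filter (fun v => br v = some i) := Finset.mem_filter.mpr ⟨hu, hbu⟩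
      have hv' : v ∈ S.filter (fun v => br v = some i) := Finset.mem_filter.mpr ⟨hv, hbv⟩
      rw [hc1 i u hu', hc1 i v hv'] at hcc
      have h3 := hg_inj i hcc
      exact huv.ne (congrArg Subtype.val h3)
    · exact h2 u v i j hbu hbv hij huv

end Pool.Agent.XCPerf
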