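import Pool.Agent.XCPerf.Cover
import Pool.Agent.XCPerf.Unipolar
import Pool.Agent.XCPerf.Count

set_option autoImplicit false

/-!
# The graphs

Vertices: the points of the grid `Fin q × Fin q` (a clique), for every branch `i : Fin k` the rows
`(i, true, y)` and the columns `(i, false, x)` (a clique), and `r` isolated vertices.  A point is
adjacent to the lines not through it; different branches are not joined.
-/

namespace Pool.Agent.XCPerf

open Finset

/-- vertices -/
abbrev Vx (q k r : ℕ) : Type := (Fin q × Fin q) ⊕ ((Fin k × Bool × Fin q) ⊕ Fin r)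

/-- adjacency -/
def adjR {q k r : ℕ} : Vx q k r → Vx q k r → Prop
  | Sum.inl c, Sum.inl d => c ≠ d
  | Sum.inl c, Sum.inr (Sum.inl p) => co p.2.1 c ≠ p.2.2
  | Sum.inr (Sum.inl p), Sum.inl c => co p.2.1 c ≠ p.2.2
  | Sum.inr (Sum.inl p), Sum.inr (Sum.inl p') => p.1 = p'.1 ∧ p ≠ p'
  | _, _ => False

theorem adjR_symm {q k r : ℕ} (u v : Vx q k r) (h : adjR u v) : adjR v u := by
  rcases u with c | p | e <;> rcases v with d | p' | e'
  · exact fun h' => h h'.symm
  · exact h
  · exact h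
  · exact h
  · exact ⟨h.1.symm, fun h' => h.2 h'.symm⟩
  · exact h
  · exact h
  · exact h
  · exact h

theorem adjR_irrefl {q k r : ℕ} (u : Vx q k r) : ¬ adjR u u := by
  rcases u with c | p | e
  · exact fun h => h rfl
  · exact fun h => h.2 rfl
  · exact fun h => h

/-- the graph on `Fin n`, through an equivalence of vertex sets -/
def gr {q k r n : ℕ} (e : Vx q k r ≃ Fin n) : SimpleGraph (Fin n) where
  Adj u v := adjR (e.symm u) (e.symm v)
  symm := ⟨fun _ _ h => adjR_symm _ _ h⟩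
  loopless := ⟨fun _ h => adjR_irrefl _ h⟩

theorem gr_adj {q k r n : ℕ} (e : Vx q k r ≃ Fin n) (u v : Fin n) :
    (gr e).Adj u v ↔ adjR (e.symm u) (e.symm v) := Iff.rfl

/-- the branch of a vertex -/
def brV {q k r : ℕ} : Vx q k r → Option (Fin k ⊕ Fin r)
  | Sum.inl _ => none
  | Sum.inr (Sum.inl p) => some (Sum.inl p.1)
  | Sum.inr (Sum.inr e) => some (Sum.inr e)

theorem gr_perfect {q k r n : ℕ} (e : Vx q k r ≃ Fin n) (S : Finset (Fin n)) (m : ℕ)
    (hm : ∀ t : Finset (Fin n), t ⊆ S → (∀ u ∈ t, ∀ v ∈ t, u ≠ v → (gr e).Adj u v) → t.card ≤ m) :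
    ∃ c : Fin n → ℕ, (∀ u ∈ S, c u < m) ∧ ∀ u ∈ S, ∀ v ∈ S, (gr e).Adj u v → c u ≠ c v := by
  apply unipolar_perfect (gr e) (fun v => brV (e.symm v)) _ _ _ S m hm
  · intro u v huv hu hv
    rw [gr_adj]
    have huv' : e.symm u ≠ e.symm v := fun h => huv (e.symm.injective h)
    revert hu hv huv'
    rcases e.symm u with c | p | a <;> rcases e.symm v with d | p' | a' <;>
      intro hu hv huv' <;> simp [brV] at hu hv
    exact fun h => huv' (by rw [h])
  · intro u v i huv hu hv
    rw [gr_adj]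
    have huv' : e.symm u ≠ e.symm v := fun h => huv (e.symm.injective h)
    revert hu hv huv'
    rcases e.symm u with c | p | a <;> rcases e.symm v with d | p' | a' <;>
      intro hu hv huv'
    · simp [brV] at hu
    · simp [brV] at hu
    · simp [brV] at hu
    · simp [brV] at hv
    · have h1 : (some (Sum.inl p.1) : Option (Fin k ⊕ Fin r)) = some (Sum.inl p'.1) :=
        hu.trans hv.symm
      have h2 : p.1 = p'.1 := Sum.inl.inj (Option.some.inj h1)
      exact ⟨h2, fun h => huv' (by rw [h])⟩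
    · have h1 : (some (Sum.inl p.1) : Option (Fin k ⊕ Fin r)) = some (Sum.inr a') :=
        hu.trans hv.symm
      exact absurd (Option.some.inj h1) (by simp)
    · simp [brV] at hv
    · have h1 : (some (Sum.inr a) : Option (Fin k ⊕ Fin r)) = some (Sum.inl p'.1) :=
        hu.trans hv.symm
      exact absurd (Option.some.inj h1) (by simp)
    · have h1 : (some (Sum.inr a) : Option (Fin k ⊕ Fin r)) = some (Sum.inr a') :=
        hu.trans hv.symm
      have h2 : a = a' := Sum.inr.inj (Option.some.inj h1)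
      exact absurd (by rw [h2]) huv'
  · intro u v i j hu hv hij
    rw [gr_adj]
    revert hu hv
    rcases e.symm u with c | p | a <;> rcases e.symm v with d | p' | a' <;>
      intro hu hv hadj
    · simp [brV] at hu
    · simp [brV] at hu
    · simp [brV] at hu
    · simp [brV] at hv
    · have h1 : p.1 = p'.1 := hadj.1
      have h2 : (some (Sum.inl p.1) : Option (Fin k ⊕ Fin r)) = some i := hu
      have h3 : (some (Sum.inl p'.1) : Option (Fin k ⊕ Fin r)) = some j := hv
      rw [h1] at h2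
      exact hij (Option.some.inj (h2.symm.trans h3))
    · exact hadj
    · exact hadj
    · exact hadj
    · exact hadj

/-- the hard clique -/
def cliq {q k r : ℕ} (i : Fin k) (c : Fin q × Fin q) (s : Bool) (U : Finset (Fin q)) :
    Vx q k r → Prop
  | Sum.inl d => co s d = co s c ∧ co (!s) d ∈ U ∧ d ≠ c
  | Sum.inr (Sum.inl p) => p.1 = i ∧ ((p.2.1 = s ∧ p.2.2 ≠ co s c) ∨
      (p.2.1 = !s ∧ (p.2.2 ∉ U ∨ p.2.2 = co (!s) c)))
  | Sum.inr (Sum.inr _) => False

/-- the hard stable set -/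
def stab {q k r : ℕ} (c : Fin q × Fin q) (t : Fin k → Bool) : Vx q k r → Prop
  | Sum.inl d => d = c
  | Sum.inr (Sum.inl p) => p.2.1 = t p.1 ∧ p.2.2 = co (t p.1) c
  | Sum.inr (Sum.inr _) => False

theorem cliq_clique {q k r : ℕ} (i : Fin k) (c : Fin q × Fin q) (s : Bool) (U : Finset (Fin q))
    (u v : Vx q k r) (hu : cliq i c s U u) (hv : cliq i c s U v) (huv : u ≠ v) : adjR u v := by
  have cross : ∀ (d : Fin q × Fin q) (p : Fin k × Bool × Fin q),
      cliq (r := r) i c s U (Sum.inl d) → cliq (r := r) i c s U (Sum.inr (Sum.inl p)) →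
      co p.2.1 d ≠ p.2.2 := by
    rintro d ⟨i', s', v'⟩ ⟨h1, h2, h3⟩ ⟨_, h4 | h4⟩
    · obtain ⟨h5, h6⟩ := h4
      simp only at h5 h6 ⊢
      subst h5
      rw [h1]
      exact fun h => h6 h.symm
    · obtain ⟨h5, h6⟩ := h4
      simp only at h5 h6 ⊢
      subst h5
      rcases h6 with h6 | h6
      · rintro rfl
        exact h6 h2
      · rintro h7
        exact h3 (co_ext s h1 (h7.trans h6))
  rcases u with d | p | a <;> rcases v with d' | p' | a'
  · exact fun h => huv (by rw [h])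
  · exact cross d p' hu hv
  · exact hv
  · exact cross d' p hv hu
  · exact ⟨hu.1.trans hv.1.symm, fun h => huv (by rw [h])⟩
  · exact hv
  · exact hu
  · exact hu
  · exact hu

theorem stab_stable {q k r : ℕ} (c : Fin q × Fin q) (t : Fin k → Bool)
    (u v : Vx q k r) (hu : stab c t u) (hv : stab c t v) : ¬ adjR u v := by
  rcases u with d | p | a <;> rcases v with d' | p' | a' <;> intro hadj
  · exact hadj (hu.trans hv.symm)
  · obtain ⟨h1, h2⟩ := hv
    have hu' : d = c := hu
    have : co p'.2.1 d = p'.2.2 := by rw [h1, h2, hu']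
    exact hadj this
  · exact hv
  · obtain ⟨h1, h2⟩ := hu
    have hv' : d' = c := hv
    have : co p.2.1 d' = p.2.2 := by rw [h1, h2, hv']
    exact hadj this
  · obtain ⟨i, s, v⟩ := p
    obtain ⟨i', s', v'⟩ := p'
    obtain ⟨h1, h2⟩ := hu
    obtain ⟨h3, h4⟩ := hv
    obtain ⟨h5, h6⟩ := hadj
    simp only at h1 h2 h3 h4 h5
    subst h5
    apply h6
    rw [h1, h2, h3, h4]
  · exact hv
  · exact hu
  · exact hu
  · exact hu

theorem cliq_stab_disj {q k r : ℕ} (i : Fin k) (c : Fin q × Fin q) (t : Fin k → Bool)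
    (U : Finset (Fin q)) (u : Vx q k r) (hu : cliq i c (t i) U u) (hv : stab c t u) : False := by
  rcases u with d | p | a
  · exact hu.2.2 hv
  · obtain ⟨i', s', v'⟩ := p
    obtain ⟨h1, h2⟩ := hu
    obtain ⟨h3, h4⟩ := hv
    simp only at h1 h2 h3 h4
    subst h1
    rcases h2 with h2 | h2
    · exact h2.2 h4
    · have := h3.symm.trans h2.1
      cases h : t i' <;> rw [h] at this <;> simp at this
  · exact hu

theorem lower_bound {q k r n : ℕ} (e : Vx q k r ≃ Fin n) {K f : ℕ}
    (A : Fin f → Fin K → ℝ) (b : Fin f → ℝ) (π : (Fin K → ℝ) →ᵃ[ℝ] (Fin n → ℝ))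
    (h : π '' {y : Fin K → ℝ | ∀ i, ∑ j, A i j * y j ≤ b i} =
        convexHull ℝ {x : Fin n → ℝ | ∃ s : Finset (Fin n),
          (∀ u ∈ s, ∀ v ∈ s, ¬ (gr e).Adj u v) ∧ x = fun i => if i ∈ s then (1:ℝ) else 0}) :
    2 * k * q ^ 2 ≤ f := by
  classical
  obtain ⟨W, hW⟩ := cover_of_extension (gr e) A b π h
  -- the samples served by `W a`
  set Z : Fin f → Finset (Fin k × (Fin q × Fin q) × (Fin k → Bool) × Finset (Fin q)) := fun a =>
    (Finset.univ : Finset (Fin k × (Fin q × Fin q) × (Fin k → Bool) × Finset (Fin q))).filter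
      (fun w => Serve (fun c => e (Sum.inl c) ∉ W a)
        (fun i s v => e (Sum.inr (Sum.inl (i, s, v))) ∉ W a) w.1 w.2.1 w.2.2.1 w.2.2.2) with hZ
  have hcov : (Finset.univ : Finset (Fin k × (Fin q × Fin q) × (Fin k → Bool) ×
      Finset (Fin q))) ⊆ (Finset.univ : Finset (Fin f)).biUnion Z := by
    rintro ⟨i, c, t, U⟩ _
    set Kf : Finset (Fin n) := Finset.univ.filter (fun v => cliq i c (t i) U (e.symm v)) with hKf
    set Sf : Finset (Fin n) := Finset.univ.filter (fun v => stab c t (e.symm v)) with hSf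
    obtain ⟨a, ha1, ha2⟩ := hW Kf Sf
      (by
        intro u hu v hv huv
        rw [gr_adj]
        exact cliq_clique i c (t i) U _ _ (Finset.mem_filter.mp hu).2 (Finset.mem_filter.mp hv).2
          (fun h => huv (e.symm.injective h)))
      (by
        intro u hu v hv
        rw [gr_adj]
        exact stab_stable c t _ _ (Finset.mem_filter.mp hu).2 (Finset.mem_filter.mp hv).2)
      ⟨e (Sum.inr (Sum.inl (i, !(t i), co (!(t i)) c))), by
        rw [hKf, Finset.mem_filter]
        refine ⟨Finset.mem_univ _, ?_⟩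
        rw [Equiv.symm_apply_apply]
        exact ⟨rfl, Or.inr ⟨rfl, Or.inr rfl⟩⟩⟩
      (by
        rw [Finset.disjoint_left]
        intro u hu hv
        exact cliq_stab_disj i c t U _ (Finset.mem_filter.mp hu).2 (Finset.mem_filter.mp hv).2)
    rw [Finset.mem_biUnion]
    refine ⟨a, Finset.mem_univ _, Finset.mem_filter.mpr ⟨Finset.mem_univ _, ?_⟩⟩
    have hK : ∀ v : Vx q k r, cliq i c (t i) U v → e v ∈ W a := by
      intro v hv
      apply ha1
      rw [hKf, Finset.mem_filter, Equiv.symm_apply_apply]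
      exact ⟨Finset.mem_univ _, hv⟩
    have hS : ∀ v : Vx q k r, stab c t v → e v ∉ W a := by
      intro v hv
      apply ha2
      rw [hSf, Finset.mem_filter, Equiv.symm_apply_apply]
      exact ⟨Finset.mem_univ _, hv⟩
    refine ⟨hS _ rfl, fun j => hS _ ⟨rfl, rfl⟩, ?_, ?_, ?_⟩
    · intro d h1 h2 h3 h4
      exact h4 (hK (Sum.inl d) ⟨h1, h2, h3⟩)
    · intro v hv h4
      exact h4 (hK (Sum.inr (Sum.inl (i, t i, v))) ⟨rfl, Or.inl ⟨rfl, hv⟩⟩)
    · intro v hv h4
      exact h4 (hK (Sum.inr (Sum.inl (i, !(t i), v))) ⟨rfl, Or.inr ⟨rfl, hv⟩⟩)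
  have h1 := Finset.card_le_card hcov
  have h2 : ((Finset.univ : Finset (Fin f)).biUnion Z).card ≤ ∑ a : Fin f, (Z a).card :=
    Finset.card_biUnion_le
  have h3 : 2 * ∑ a : Fin f, (Z a).card ≤ f * 2 ^ (k + q) := by
    rw [Finset.mul_sum]
    calc ∑ a : Fin f, 2 * (Z a).card ≤ ∑ _a : Fin f, 2 ^ (k + q) :=
          Finset.sum_le_sum fun a _ => count_bound _ _
      _ = f * 2 ^ (k + q) := by
          rw [Finset.sum_const, Finset.card_univ, Fintype.card_fin, smul_eq_mul]
  have h4 : (Finset.univ : Finset (Fin k × (Fin q × Fin q) × (Fin k → Bool) ×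
      Finset (Fin q))).card = k * q ^ 2 * 2 ^ (k + q) := by
    rw [Finset.card_univ]
    simp only [Fintype.card_prod, Fintype.card_fin, Fintype.card_fun, Fintype.card_bool,
      Fintype.card_finset]
    rw [pow_add]; ring
  have h5 : (2 * k * q ^ 2) * 2 ^ (k + q) ≤ f * 2 ^ (k + q) := by
    calc (2 * k * q ^ 2) * 2 ^ (k + q) = 2 * (k * q ^ 2 * 2 ^ (k + q)) := by ring
      _ ≤ 2 * ∑ a : Fin f, (Z a).card := by
          rw [← h4]; exact Nat.mul_le_mul_left _ (h1.trans h2)
      _ ≤ f * 2 ^ (k + q) := h3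
  exact Nat.le_of_mul_le_mul_right h5 (by positivity)

theorem exists_equiv (q k n : ℕ) (h : q ^ 2 + 2 * q * k ≤ n) :
    ∃ r : ℕ, Nonempty (Vx q k r ≃ Fin n) := by
  refine ⟨n - (q ^ 2 + 2 * q * k), ⟨Fintype.equivFinOfCardEq ?_⟩⟩
  simp only [Vx, Fintype.card_sum, Fintype.card_prod, Fintype.card_fin, Fintype.card_bool]
  have : q * q + k * (2 * q) = q ^ 2 + 2 * q * k := by ring
  omega

end Pool.Agent.XCPerf
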